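import Pool.Agent.H249R3.Gau.Alt2

/-!
# `NE = coNE` without `NE = ESPACE`

For every gauge `f`, the set of the oracles `A` with `NE^A = coNE^A` such that `ESPACE^A` is not
contained in the hierarchy over `E^A` is a null set for `f` if and only if for every `ε > 0` there
are infinitely many `N` with `f N ≤ ε log log N`.

The proof is in modules of helpers 249, 620, 622 and others.
-/

set_option autoImplicit false

namespace Pool.Agent.Results.MP_64fb07_lc.GaugeSpaceGap

open Pool.Agent.NPC Pool.Agent.H620R2.Gauge Pool.Agent.H622R2.Exp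

theorem result (f : ℕ → ℝ) :
    Null f {A : Oracle | (∀ L, InNTime Lin A L ↔ InNTime Lin A Lᶜ) ∧
        ¬ ∀ L, InSpace Lin A L → InAlt Lin A L} ↔
      ∀ ε : ℝ, 0 < ε → ∃ᶠ N : ℕ in Filter.atTop,
        f N ≤ ε * Real.logb 2 (Real.logb 2 N) :=
  Pool.Agent.H249R3.Gau.resCo f

end Pool.Agent.Results.MP_64fb07_lc.GaugeSpaceGap
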